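import Mathlib

/-!
# Values at `-1` of the subsum numerators of ternary partitions
-/

namespace Pool.Agent.Results.MP_6f4f36_nt.ValueAtMinusOne

open Polynomial Finset

open Classical in
/-- The set of ternary partitions of `n`: the partitions all of whose parts are powers of `3`. -/
noncomputable def ternary (n : ℕ) : Finset (Nat.Partition n) :=
  Finset.univ.filter fun p => ∀ a ∈ p.parts, ∃ j : ℕ, a = 3 ^ j

theorem mem_ternary {n : ℕ} (p : Nat.Partition n) :
    p ∈ ternary n ↔ ∀ a ∈ p.parts, ∃ j : ℕ, a = 3 ^ j := by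
  classical
  unfold ternary
  simp

/-- `h_λ(x) = ∏_{i=1}^n (1 + x ^ i) ^ (⌊n / i⌋ - m_λ(i))`, where `m_λ(i)` is the multiplicity of `i` as a
part of `λ`. -/
noncomputable def hPoly {n : ℕ} (p : Nat.Partition n) : ℤ[X] :=
  ∏ i ∈ Finset.Icc 1 n, (1 + X ^ i) ^ (n / i - p.parts.count i)

/-- `G` is the monic greatest common divisor in `ℤ[x]` of the polynomials `h_λ`, `λ` a ternary partition
of `n`. -/
def IsMonicGcd (n : ℕ) (G : ℤ[X]) : Prop :=
  G.Monic ∧ (∀ p ∈ ternary n, G ∣ hPoly p) ∧ ∀ D : ℤ[X], (∀ p ∈ ternary n, D ∣ hPoly p) → D ∣ G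

/-- `N` is the polynomial `num_T(n, x) = (1 / G) ∑_λ h_λ`, where `G` is the monic greatest common divisor
of the `h_λ` and `λ` runs over the ternary partitions of `n`. -/
def IsNum (n : ℕ) (N : ℤ[X]) : Prop :=
  ∃ G : ℤ[X], IsMonicGcd n G ∧ G * N = ∑ p ∈ ternary n, hPoly p

/-- the factors `Ψ_0 = 1 + x`, `Ψ_i = Φ_{2 · 3^i}` -/
noncomputable def psi (i : ℕ) : ℤ[X] := cyclotomic (2 * 3 ^ i) ℤ

theorem psi_zero : psi 0 = 1 + X := by
  unfold psi
  rw [pow_zero, mul_one, cyclotomic_two, add_comm]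

theorem psi_irreducible (i : ℕ) : Irreducible (psi i) := cyclotomic.irreducible (by positivity)

theorem psi_monic (i : ℕ) : (psi i).Monic := cyclotomic.monic _ _

theorem psi_injective {i j : ℕ} (h : psi i = psi j) : i = j := by
  have h1 : (2 * 3 ^ i) = 2 * 3 ^ j := cyclotomic_injective (R := ℤ) h
  have h2 : 3 ^ i = 3 ^ j := by omega
  exact Nat.pow_right_injective (le_refl 2 |>.trans (by norm_num)) h2

theorem expand_psi_zero : expand ℤ 3 (psi 0) = psi 1 * psi 0 := by
  have h := cyclotomic_expand_eq_cyclotomic_mul (p := 3) (n := 2) Nat.prime_three (by norm_num) ℤ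
  unfold psi
  simpa using h

theorem expand_psi_succ (i : ℕ) : expand ℤ 3 (psi (i + 1)) = psi (i + 2) := by
  unfold psi
  rw [cyclotomic_expand_eq_cyclotomic Nat.prime_three
    (Dvd.dvd.mul_left (dvd_pow_self 3 (by omega)) 2)]
  congr 1
  ring

theorem one_add_pow (j : ℕ) : (1 + X ^ (3 ^ j) : ℤ[X]) = ∏ i ∈ range (j + 1), psi i := by
  induction j with
  | zero => simp [psi_zero]
  | succ j ih =>
    have h1 : (1 + X ^ (3 ^ (j + 1)) : ℤ[X]) = expand ℤ 3 (1 + X ^ (3 ^ j)) := by
      rw [map_add, map_one, map_pow, expand_X, ← pow_mul, pow_succ, mul_comm]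
    rw [h1, ih, map_prod, Finset.prod_range_succ', expand_psi_zero]
    simp only [expand_psi_succ]
    rw [Finset.prod_range_succ' _ (j + 1), Finset.prod_range_succ' _ j, ← mul_assoc]

theorem eval_psi_zero : (psi 0).eval (-1) = 0 := by
  rw [psi_zero]
  simp

theorem eval_psi_succ (i : ℕ) : (psi (i + 1)).eval (-1) = 3 := by
  have h1 : psi 1 * psi 0 = (X ^ 2 - X + 1) * psi 0 := by
    rw [← expand_psi_zero, psi_zero]
    rw [map_add, map_one, expand_X]
    ring
  have h2 : psi 1 = X ^ 2 - X + 1 := mul_right_cancel₀ (psi_irreducible 0).ne_zero h1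
  have h3 : ∀ i, psi (i + 1) = expand ℤ (3 ^ i) (psi 1) := by
    intro i
    induction i with
    | zero => simp
    | succ i ih =>
      rw [← expand_psi_succ, ih, expand_expand]
      congr 2
      ring
  rw [h3, h2, expand_eval]
  simp only [eval_add, eval_sub, eval_pow, eval_X, eval_one]
  have h4 : (-1 : ℤ) ^ (3 ^ i) = -1 := Odd.neg_one_pow (Odd.pow (by decide))
  rw [h4]
  norm_num

/-- the number of parts divisible by `3 ^ i` -/
def aCount {n : ℕ} (p : Nat.Partition n) (i : ℕ) : ℕ := p.parts.countP (fun a => 3 ^ i ∣ a)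

theorem aCount_le {n : ℕ} (p : Nat.Partition n) (i : ℕ) : aCount p i ≤ n / 3 ^ i := by
  rw [Nat.le_div_iff_mul_le (by positivity)]
  unfold aCount
  have key : ∀ s : Multiset ℕ, (∀ a ∈ s, 0 < a) →
      s.countP (fun a => 3 ^ i ∣ a) * 3 ^ i ≤ s.sum := by
    intro s
    induction s using Multiset.induction with
    | empty => intro _; simp
    | cons a s ih =>
      intro hs
      rw [Multiset.countP_cons, Multiset.sum_cons]
      have h1 := ih (fun b hb => hs b (Multiset.mem_cons_of_mem hb))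
      split_ifs with h2
      · have h3 : 3 ^ i ≤ a := Nat.le_of_dvd (hs a (Multiset.mem_cons_self a s)) h2
        rw [Nat.add_mul, one_mul]
        omega
      · rw [Nat.add_zero]
        omega
  have := key p.parts (fun a ha => p.parts_pos ha)
  rwa [p.parts_sum] at this

/-- `L = ∏_i Ψ_i ^ ⌊n / 3^i⌋` -/
noncomputable def bigL (n : ℕ) : ℤ[X] := ∏ i ∈ range (n + 1), psi i ^ (n / 3 ^ i)

noncomputable def spPoly {n : ℕ} (p : Nat.Partition n) : ℤ[X] :=
  ∏ i ∈ Finset.Icc 1 n, (1 + X ^ i) ^ (p.parts.count i)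

noncomputable def uPoly {n : ℕ} (p : Nat.Partition n) : ℤ[X] :=
  ∏ i ∈ range (n + 1), psi i ^ (n / 3 ^ i - aCount p i)

noncomputable def bigR (n : ℕ) : ℤ[X] := ∏ i ∈ Finset.Icc 1 n, (1 + X ^ i) ^ (n / i)

theorem part_le {n : ℕ} (p : Nat.Partition n) {a : ℕ} (ha : a ∈ p.parts) : a ≤ n := by
  have := Multiset.le_sum_of_mem ha
  rwa [p.parts_sum] at this

theorem count_le {n : ℕ} (p : Nat.Partition n) {i : ℕ} (hi : 0 < i) : p.parts.count i ≤ n / i := by
  rw [Nat.le_div_iff_mul_le hi]
  have key : ∀ s : Multiset ℕ, s.count i * i ≤ s.sum := by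
    intro s
    induction s using Multiset.induction with
    | empty => simp
    | cons a s ih =>
      rw [Multiset.count_cons, Multiset.sum_cons]
      split_ifs with h
      · subst h; rw [Nat.add_mul, one_mul]; omega
      · rw [Nat.add_zero]; omega
  have := key p.parts
  rwa [p.parts_sum] at this

theorem h_mul_sp {n : ℕ} (p : Nat.Partition n) : hPoly p * spPoly p = bigR n := by
  unfold hPoly spPoly bigR
  rw [← Finset.prod_mul_distrib]
  refine Finset.prod_congr rfl fun i hi => ?_
  rw [← pow_add]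
  have := count_le p (show 0 < i from by have := (Finset.mem_Icc.1 hi).1; omega)
  congr 1
  omega

theorem sp_eq_map {n : ℕ} (p : Nat.Partition n) :
    spPoly p = (p.parts.map fun a => (1 + X ^ a : ℤ[X])).prod := by
  classical
  rw [Finset.prod_multiset_map_count]
  unfold spPoly
  symm
  apply Finset.prod_subset
  · intro a ha
    rw [Multiset.mem_toFinset] at ha
    exact Finset.mem_Icc.2 ⟨p.parts_pos ha, part_le p ha⟩
  · intro a _ ha
    rw [Multiset.mem_toFinset] at ha
    rw [Multiset.count_eq_zero_of_notMem ha, pow_zero]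

theorem prod_ite (s : Multiset ℕ) (K : ℕ) :
    (s.map fun a => ∏ i ∈ range K, if 3 ^ i ∣ a then psi i else 1).prod =
      ∏ i ∈ range K, psi i ^ s.countP (fun a => 3 ^ i ∣ a) := by
  induction s using Multiset.induction with
  | empty => simp
  | cons a s ih =>
    rw [Multiset.map_cons, Multiset.prod_cons, ih, ← Finset.prod_mul_distrib]
    refine Finset.prod_congr rfl fun i _ => ?_
    rw [Multiset.countP_cons]
    split_ifs with h
    · rw [pow_succ, mul_comm]
    · simp

theorem sp_eq {n : ℕ} {p : Nat.Partition n} (hp : p ∈ ternary n) :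
    spPoly p = ∏ i ∈ range (n + 1), psi i ^ aCount p i := by
  rw [sp_eq_map]
  unfold aCount
  rw [← prod_ite]
  congr 1
  apply Multiset.map_congr rfl
  intro a ha
  rw [mem_ternary] at hp
  obtain ⟨j, rfl⟩ := hp a ha
  have hj : j < n + 1 := by
    have h1 := part_le p ha
    have h2 : j < 3 ^ j := Nat.lt_pow_self (by norm_num)
    omega
  rw [one_add_pow, ← Finset.prod_filter]
  apply Finset.prod_congr _ (fun _ _ => rfl)
  ext i
  rw [Finset.mem_range, Finset.mem_filter, Finset.mem_range]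
  constructor
  · intro h
    exact ⟨by omega, pow_dvd_pow 3 (by omega)⟩
  · intro h
    have := (Nat.pow_dvd_pow_iff_le_right (by norm_num : 1 < 3)).1 h.2
    omega

theorem sp_mul_u {n : ℕ} {p : Nat.Partition n} (hp : p ∈ ternary n) :
    spPoly p * uPoly p = bigL n := by
  rw [sp_eq hp]
  unfold uPoly bigL
  rw [← Finset.prod_mul_distrib]
  refine Finset.prod_congr rfl fun i _ => ?_
  rw [← pow_add]
  have := aCount_le p i
  congr 1
  omega

theorem bigL_dvd_bigR (n : ℕ) : bigL n ∣ bigR n := by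
  classical
  unfold bigL bigR
  have h1 : ∏ i ∈ range (n + 1), psi i ^ (n / 3 ^ i) =
      ∏ i ∈ (range (n + 1)).filter (fun i => 3 ^ i ≤ n), psi i ^ (n / 3 ^ i) := by
    rw [Finset.prod_filter]
    refine Finset.prod_congr rfl fun i _ => ?_
    split_ifs with h
    · rfl
    · rw [Nat.div_eq_of_lt (by omega), pow_zero]
  have h2 : ∏ i ∈ (range (n + 1)).filter (fun i => 3 ^ i ≤ n), psi i ^ (n / 3 ^ i) ∣
      ∏ i ∈ (range (n + 1)).filter (fun i => 3 ^ i ≤ n), (1 + X ^ (3 ^ i) : ℤ[X]) ^ (n / 3 ^ i) := by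
    apply Finset.prod_dvd_prod_of_dvd
    intro i _
    apply pow_dvd_pow_of_dvd
    rw [one_add_pow]
    exact Finset.dvd_prod_of_mem _ (Finset.mem_range.2 (by omega))
  have h3 : ∏ i ∈ (range (n + 1)).filter (fun i => 3 ^ i ≤ n), (1 + X ^ (3 ^ i) : ℤ[X]) ^ (n / 3 ^ i) =
      ∏ a ∈ ((range (n + 1)).filter (fun i => 3 ^ i ≤ n)).image (fun i => 3 ^ i),
        (1 + X ^ a : ℤ[X]) ^ (n / a) := by
    rw [Finset.prod_image]
    intro i _ j _ hij
    exact Nat.pow_right_injective (by norm_num : 2 ≤ 3) hij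
  rw [h1]
  refine h2.trans ?_
  rw [h3]
  apply Finset.prod_dvd_prod_of_subset
  intro a ha
  rw [Finset.mem_image] at ha
  obtain ⟨i, hi, rfl⟩ := ha
  rw [Finset.mem_filter] at hi
  exact Finset.mem_Icc.2 ⟨Nat.one_le_pow _ _ (by norm_num), hi.2⟩

theorem one_add_X_pow_ne_zero {i : ℕ} (hi : 0 < i) : (1 + X ^ i : ℤ[X]) ≠ 0 := by
  intro h
  have := congrArg (fun q => q.coeff 0) h
  simp [coeff_X_pow, hi.ne] at this

theorem one_add_X_pow_monic {i : ℕ} (hi : 0 < i) : (1 + X ^ i : ℤ[X]).Monic := by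
  rw [add_comm]
  simpa using monic_X_pow_add_C (1 : ℤ) hi.ne'

theorem bigR_monic (n : ℕ) : (bigR n).Monic := by
  unfold bigR
  apply monic_prod_of_monic
  intro i hi
  exact (one_add_X_pow_monic (by have := (Finset.mem_Icc.1 hi).1; omega)).pow _

theorem bigL_monic (n : ℕ) : (bigL n).Monic := by
  unfold bigL
  apply monic_prod_of_monic
  intro i _
  exact (psi_monic i).pow _

/-- the partition of `n` into `c` parts `3^i` and ones -/
def special (n i c : ℕ) (h : c * 3 ^ i ≤ n) : Nat.Partition n where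
  parts := Multiset.replicate c (3 ^ i) + Multiset.replicate (n - c * 3 ^ i) 1
  parts_pos := by
    intro a ha
    rw [Multiset.mem_add] at ha
    rcases ha with ha | ha
    · rw [Multiset.eq_of_mem_replicate ha]; positivity
    · rw [Multiset.eq_of_mem_replicate ha]; norm_num
  parts_sum := by
    rw [Multiset.sum_add, Multiset.sum_replicate, Multiset.sum_replicate]
    simp only [smul_eq_mul, mul_one]
    omega

theorem special_mem (n i c : ℕ) (h : c * 3 ^ i ≤ n) : special n i c h ∈ ternary n := by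
  rw [mem_ternary]
  intro a ha
  unfold special at ha
  simp only [Multiset.mem_add] at ha
  rcases ha with ha | ha
  · exact ⟨i, Multiset.eq_of_mem_replicate ha⟩
  · exact ⟨0, by rw [Multiset.eq_of_mem_replicate ha]; simp⟩

theorem aCount_special (n i c : ℕ) (h : c * 3 ^ i ≤ n) (hi : 0 < i) :
    aCount (special n i c h) i = c := by
  unfold aCount special
  simp only [Multiset.countP_add]
  rw [Multiset.countP_eq_card.2, Multiset.countP_eq_zero.2, Multiset.card_replicate, add_zero]
  · intro a ha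
    rw [Multiset.eq_of_mem_replicate ha]
    intro hd
    have h1 : 3 ^ i ≤ 1 := Nat.le_of_dvd (by norm_num) hd
    have h2 : 3 ^ 1 ≤ 3 ^ i := Nat.pow_le_pow_right (by norm_num) hi
    omega
  · intro a ha
    rw [Multiset.eq_of_mem_replicate ha]

theorem aCount_ones (n j : ℕ) (h : 0 * 3 ^ 0 ≤ n) (hj : 0 < j) :
    aCount (special n 0 0 h) j = 0 := by
  unfold aCount special
  simp only [Multiset.replicate_zero, zero_add]
  rw [Multiset.countP_eq_zero]
  intro a ha
  rw [Multiset.eq_of_mem_replicate ha]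
  intro hd
  have h1 : 3 ^ j ≤ 1 := Nat.le_of_dvd (by norm_num) hd
  have h2 : 3 ^ 1 ≤ 3 ^ j := Nat.pow_le_pow_right (by norm_num) hj
  omega

theorem aCount_zero {n : ℕ} (p : Nat.Partition n) : aCount p 0 = Multiset.card p.parts := by
  unfold aCount
  rw [Multiset.countP_eq_card]
  intro a _
  simp

theorem aCount_ones_zero (n : ℕ) (h : 0 * 3 ^ 0 ≤ n) : aCount (special n 0 0 h) 0 = n := by
  rw [aCount_zero]
  unfold special
  simp

/-- A common divisor of all `u_λ` is a unit. -/
theorem isUnit_of_dvd_u (n : ℕ) (D : ℤ[X]) (hD : ∀ p ∈ ternary n, D ∣ uPoly p) : IsUnit D := by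
  classical
  by_contra hcon
  have h1 := hD _ (special_mem n 0 0 (by simp))
  have hu0 : uPoly (special n 0 0 (by simp)) ≠ 0 := by
    unfold uPoly
    exact Finset.prod_ne_zero_iff.2 fun i _ => pow_ne_zero _ (psi_irreducible i).ne_zero
  have hD0 : D ≠ 0 := by
    rintro rfl
    exact hu0 (zero_dvd_iff.1 h1)
  obtain ⟨P, hP, hPD⟩ := WfDvdMonoid.exists_irreducible_factor hcon hD0
  have hPp : Prime P := UniqueFactorizationMonoid.irreducible_iff_prime.1 hP
  -- P divides some psi i with i ≥ 1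
  have h2 : P ∣ uPoly (special n 0 0 (by simp)) := hPD.trans h1
  unfold uPoly at h2
  obtain ⟨i, hi, h3⟩ := (Prime.dvd_finsetProd_iff hPp _).1 h2
  have hi0 : 0 < i := by
    by_contra hi0
    have hi0' : i = 0 := by omega
    subst hi0'
    rw [aCount_ones_zero, pow_zero, Nat.div_one, Nat.sub_self, pow_zero] at h3
    exact hPp.not_isUnit (isUnit_of_dvd_one h3)
  have hassoc : Associated P (psi i) :=
    (hP.dvd_irreducible_iff_associated (psi_irreducible i)).1 (hPp.dvd_of_dvd_pow h3)
  set c := n / 3 ^ i with hc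
  have hle : c * 3 ^ i ≤ n := Nat.div_mul_le_self n _
  have h4 : P ∣ uPoly (special n i c hle) := hPD.trans (hD _ (special_mem n i c hle))
  unfold uPoly at h4
  obtain ⟨j, _, h5⟩ := (Prime.dvd_finsetProd_iff hPp _).1 h4
  by_cases hij : j = i
  · subst hij
    rw [aCount_special n j c hle hi0, ← hc, Nat.sub_self, pow_zero] at h5
    exact hPp.not_isUnit (isUnit_of_dvd_one h5)
  · have hassoc2 : Associated P (psi j) :=
      (hP.dvd_irreducible_iff_associated (psi_irreducible j)).1 (hPp.dvd_of_dvd_pow h5)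
    have h6 : psi i = psi j :=
      eq_of_monic_of_associated (psi_monic i) (psi_monic j) (hassoc.symm.trans hassoc2)
    exact hij (psi_injective h6).symm

theorem exists_G0 (n : ℕ) : ∃ G0 : ℤ[X], G0.Monic ∧ (∀ p ∈ ternary n, hPoly p = G0 * uPoly p) := by
  obtain ⟨G0, hG0⟩ := bigL_dvd_bigR n
  have hmonic : G0.Monic := by
    have := bigR_monic n
    rw [hG0] at this
    exact (bigL_monic n).of_mul_monic_left this
  refine ⟨G0, hmonic, ?_⟩
  intro p hp
  have h1 := h_mul_sp p
  rw [hG0, ← sp_mul_u hp] at h1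
  have h2 : spPoly p ≠ 0 := by
    unfold spPoly
    exact Finset.prod_ne_zero_iff.2 fun i hi =>
      pow_ne_zero _ (one_add_X_pow_ne_zero (by have := (Finset.mem_Icc.1 hi).1; omega))
  apply mul_right_cancel₀ h2
  rw [h1]
  ring

theorem eq_G0 (n : ℕ) (G0 : ℤ[X]) (hG0 : G0.Monic) (h : ∀ p ∈ ternary n, hPoly p = G0 * uPoly p)
    (G : ℤ[X]) (hG : IsMonicGcd n G) : G = G0 := by
  obtain ⟨hGm, hdvd, hgr⟩ := hG
  obtain ⟨D, hD⟩ := hgr G0 (fun p hp => by rw [h p hp]; exact dvd_mul_right _ _)
  have hDu : IsUnit D := by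
    apply isUnit_of_dvd_u n
    intro p hp
    have h1 := hdvd p hp
    rw [h p hp, hD] at h1
    exact (mul_dvd_mul_iff_left hG0.ne_zero).1 h1
  exact eq_of_monic_of_associated hGm hG0 (by
    rw [hD]
    exact associated_mul_unit_left G0 D hDu)

theorem isMonicGcd_G0 (n : ℕ) (G0 : ℤ[X]) (hG0 : G0.Monic)
    (h : ∀ p ∈ ternary n, hPoly p = G0 * uPoly p) : IsMonicGcd n G0 := by
  classical
  refine ⟨hG0, fun p hp => by rw [h p hp]; exact dvd_mul_right _ _, ?_⟩
  intro D hD
  let _ : NormalizedGCDMonoid ℤ[X] := UniqueFactorizationMonoid.toNormalizedGCDMonoid _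
  have h1 : D ∣ (ternary n).gcd (fun p => G0 * uPoly p) := by
    apply Finset.dvd_gcd
    intro p hp
    rw [← h p hp]
    exact hD p hp
  have h2 := Finset.gcd_mul_left' (s := ternary n) (f := uPoly) G0
  have h3 : IsUnit ((ternary n).gcd uPoly) :=
    isUnit_of_dvd_u n _ (fun p hp => Finset.gcd_dvd hp)
  have h4 : D ∣ G0 * (ternary n).gcd uPoly := h1.trans h2.dvd
  exact (IsUnit.dvd_mul_right h3).1 h4

theorem num_eq (n : ℕ) (N : ℤ[X]) (hN : IsNum n N) : N = ∑ p ∈ ternary n, uPoly p := by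
  obtain ⟨G, hG, hGN⟩ := hN
  obtain ⟨G0, hG0, h⟩ := exists_G0 n
  have h1 := eq_G0 n G0 hG0 h G hG
  subst h1
  apply mul_left_cancel₀ hG0.ne_zero
  rw [hGN, Finset.mul_sum]
  exact Finset.sum_congr rfl h

theorem exists_num (n : ℕ) : IsNum n (∑ p ∈ ternary n, uPoly p) := by
  obtain ⟨G0, hG0, h⟩ := exists_G0 n
  refine ⟨G0, isMonicGcd_G0 n G0 hG0 h, ?_⟩
  rw [Finset.mul_sum]
  exact Finset.sum_congr rfl fun p hp => (h p hp).symm

theorem eval_u {n : ℕ} (p : Nat.Partition n) (hp : p ∈ ternary n) :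
    (uPoly p).eval (-1) =
      if p = special n 0 0 (by simp) then 3 ^ (∑ i ∈ Finset.Ico 1 (n + 1), n / 3 ^ i) else 0 := by
  unfold uPoly
  rw [eval_prod, Finset.prod_range_succ']
  simp only [eval_pow, eval_psi_zero, eval_psi_succ, pow_zero, Nat.div_one]
  split_ifs with h
  · subst h
    have h0 : n - aCount (special n 0 0 (by simp)) 0 = 0 := by
      rw [aCount_ones_zero, Nat.sub_self]
    rw [h0, pow_zero (0 : ℤ), mul_one, Finset.prod_pow_eq_pow_sum]
    congr 1
    rw [Finset.sum_Ico_eq_sum_range]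
    refine Finset.sum_congr (by simp) fun i _ => ?_
    rw [aCount_ones n (i + 1) (by simp) (by omega), Nat.sub_zero, add_comm 1 i]
  · have hcard : Multiset.card p.parts < n := by
      have hle : Multiset.card p.parts ≤ n := by
        have := aCount_le p 0
        rwa [aCount_zero, pow_zero, Nat.div_one] at this
      rcases hle.lt_or_eq with h1 | h1
      · exact h1
      · exfalso
        apply h
        have hall : ∀ a ∈ p.parts, a = 1 := by
          have key : ∀ s : Multiset ℕ, (∀ a ∈ s, 0 < a) → s.sum = Multiset.card s →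
              ∀ a ∈ s, a = 1 := by
            intro s
            induction s using Multiset.induction with
            | empty => intro _ _ a ha; simp at ha
            | cons b s ih =>
              intro hs hsum a ha
              rw [Multiset.sum_cons, Multiset.card_cons] at hsum
              have hb : 0 < b := hs b (Multiset.mem_cons_self b s)
              have hs' : ∀ a ∈ s, 0 < a := fun a ha => hs a (Multiset.mem_cons_of_mem ha)
              have hge : Multiset.card s ≤ s.sum := by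
                have := Multiset.card_nsmul_le_sum (s := s) (a := 1) (fun a ha => hs' a ha)
                simpa using this
              rw [Multiset.mem_cons] at ha
              rcases ha with rfl | ha
              · omega
              · exact ih hs' (by omega) a ha
          exact key p.parts (fun a ha => p.parts_pos ha) (by rw [p.parts_sum, h1])
        have h2 : p.parts = Multiset.replicate n 1 := by
          rw [Multiset.eq_replicate]
          exact ⟨h1, hall⟩
        apply Nat.Partition.ext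
        rw [h2]
        unfold special
        simp
    rw [aCount_zero, zero_pow (by omega), mul_zero]

theorem eval_num (n : ℕ) (N : ℤ[X]) (hN : IsNum n N) :
    N.eval (-1) = 3 ^ (∑ i ∈ Finset.Ico 1 (n + 1), n / 3 ^ i) := by
  rw [num_eq n N hN, eval_finsetSum]
  rw [Finset.sum_congr rfl (fun p hp => eval_u p hp)]
  rw [Finset.sum_ite_eq' (ternary n) (special n 0 0 (by simp))]
  rw [if_pos (special_mem n 0 0 (by simp))]

theorem legendre (n : ℕ) : ∑ i ∈ Finset.Ico 1 (n + 1), n / 3 ^ i = padicValNat 3 n.factorial := by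
  have _ : Fact (Nat.Prime 3) := ⟨Nat.prime_three⟩
  rw [padicValNat_factorial]
  have : Nat.log 3 n ≤ n := Nat.log_le_self 3 n
  omega

/-- The polynomials `num_T(n, x)` exist and are unique for `n ≥ 1`; their values `s(n)` at `x = -1` satisfy
`s(1) = s(2) = 1` and `s(3n) = s(3n+1) = s(3n+2) = 3 ^ val_3((3n)!)` for all `n ≥ 1`. -/
theorem result :
    (∀ n : ℕ, 1 ≤ n → ∃! N : ℤ[X], IsNum n N) ∧
    (∀ N : ℤ[X], IsNum 1 N → N.eval (-1) = 1) ∧
    (∀ N : ℤ[X], IsNum 2 N → N.eval (-1) = 1) ∧
    (∀ n : ℕ, 1 ≤ n → ∀ i : ℕ, i ≤ 2 → ∀ N : ℤ[X], IsNum (3 * n + i) N →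
      N.eval (-1) = 3 ^ padicValNat 3 (3 * n).factorial) := by
  refine ⟨?_, ?_, ?_, ?_⟩
  · intro n _
    exact ⟨_, exists_num n, fun N hN => num_eq n N hN⟩
  · intro N hN
    rw [eval_num 1 N hN]
    decide
  · intro N hN
    rw [eval_num 2 N hN]
    decide
  · intro n _ i hi N hN
    have _ : Fact (Nat.Prime 3) := ⟨Nat.prime_three⟩
    rw [eval_num _ N hN, legendre, padicValNat_factorial_mul_add n (by omega)]

end Pool.Agent.Results.MP_6f4f36_nt.ValueAtMinusOne
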